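import Pool.Agent.JIT.Lower

namespace Pool.Agent.Results.MP_86b85e_co.AlmostAllFail

open Pool.Agent.JIT

/-- Almost all instances with many letters do not have the oneness property.  For `n ≥ 15` letters,
the proportion of the instances in `{1, …, N}^n` which have it is at least `((2n - 1) / n^2)^n` for
every `N`, and at most `n C(n, ⌊n/4⌋) (144/n)^⌊n/4⌋ + ε` for all large `N`. -/
theorem result (n : ℕ) (hn : 15 ≤ n) :
    (∀ N : ℕ, ((2 * n - 1) / (n : ℝ) ^ 2) ^ n * (N : ℝ) ^ n ≤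
      ({d : Fin n → ℕ | (∀ i, 1 ≤ d i ∧ d i ≤ N) ∧ Oneness d}.ncard : ℝ)) ∧
    (∀ ε : ℝ, 0 < ε → ∃ N0 : ℕ, ∀ N : ℕ, N0 ≤ N →
      ({d : Fin n → ℕ | (∀ i, 1 ≤ d i ∧ d i ≤ N) ∧ Oneness d}.ncard : ℝ) ≤
        (n * n.choose (n / 4) * (144 / n) ^ (n / 4) + ε) * (N : ℝ) ^ n) :=
  ⟨fun N => count_one n (by omega) N, fun ε hε => almost_all_fail n hn ε hε⟩

end Pool.Agent.Results.MP_86b85e_co.AlmostAllFail
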