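import Pool.Agent.JIT.Sharp

namespace Pool.Agent.Results.MP_86b85e_co.SqrtCriterion

open Pool.Agent.JIT

/-- If `∑ √(d i / max d) ≥ n - 1`, then the instance `d` has the oneness property, and every
minimiser of the total absolute deviation has all deviations at most one.  The bound `n - 1` is
best possible: it cannot be replaced by `n - 1 - ε` for any `ε > 0`. -/
theorem result :
    (∀ (n : ℕ) (d : Fin n → ℕ), (∀ i, 0 < d i) → (n : ℝ) - 1 ≤ sqrtSum d →
      Oneness d ∧ ∀ s, IsOptA d s → InOmega d s) ∧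
    (∀ ε : ℝ, 0 < ε → ∃ (n : ℕ) (d : Fin n → ℕ), (∀ i, 0 < d i) ∧
      (n : ℝ) - 1 - ε ≤ sqrtSum d ∧ ¬ Oneness d) := by
  refine ⟨fun n d _ h => ?_, sharp⟩
  obtain ⟨s, hs⟩ := exists_isOptA d
  exact ⟨⟨s, hs, crit_fin d h s hs⟩, fun s' hs' => crit_fin d h s' hs'⟩

end Pool.Agent.Results.MP_86b85e_co.SqrtCriterion
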