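import Pool.Agent.JIT.Posi

namespace Pool.Agent.Results.MP_86b85e_co.Threshold

open Pool.Agent.JIT

/-- Threshold theorem for the oneness property in the number `n` of letters.  With at most four
letters every instance has the oneness property, and in fact every minimiser of the total absolute
deviation has all deviations at most one; for every `n ≥ 5` a positive proportion of the instances
with `n` letters does not have the oneness property. -/
theorem result (n : ℕ) :
    (n ≤ 4 → ∀ d : Fin n → ℕ, (∀ i, 0 < d i) → Oneness d ∧ ∀ s, IsOptA d s → InOmega d s) ∧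
    (5 ≤ n → ∃ c : ℝ, 0 < c ∧ ∃ N0 : ℕ, ∀ N : ℕ, N0 ≤ N →
      c * (N : ℝ) ^ n ≤
        ({d : Fin n → ℕ | (∀ i, 1 ≤ d i ∧ d i ≤ N) ∧ ¬ Oneness d}.ncard : ℝ)) := by
  refine ⟨fun hn d _ => ?_, fun hn => pos_fail hn⟩
  obtain ⟨s, hs⟩ := exists_isOptA d
  exact ⟨⟨s, hs, four_fin hn d s hs⟩, fun s' hs' => four_fin hn d s' hs'⟩

end Pool.Agent.Results.MP_86b85e_co.Threshold
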