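import Pool.Agent.JIT.Two2

namespace Pool.Agent.Results.MP_86b85e_co.TwoDemands

open Pool.Agent.JIT Finset

/-- Instances with exactly two demands `a > b ≥ 1`, of multiplicities `K` and `s`.  If
`s K ≤ 2 K + s`, the instance has the oneness property, whatever `a` and `b` are; if
`s K > 2 K + s`, it does not have the oneness property as soon as `a ≥ 3 b s (s + K)`. -/
theorem result (n : ℕ) (d : Fin n → ℕ) (a b K s : ℕ) (hb : 0 < b) (hab : b < a)
    (hd : ∀ i, d i = a ∨ d i = b) (hK : (univ.filter (fun i => d i = a)).card = K)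
    (hs : (univ.filter (fun i => d i = b)).card = s) :
    (s * K ≤ 2 * K + s → Oneness d) ∧
    (2 * K + s < s * K → 3 * b * s * (s + K) ≤ a → ¬ Oneness d) :=
  ⟨two_ok d a b K s hb hab hd hK hs, fun h1 h2 => two_not d a b K s hb hab hd hK hs h1 h2⟩

end Pool.Agent.Results.MP_86b85e_co.TwoDemands
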